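import Pool.Agent.H62.PR.Slice0
import Pool.Agent.H72.PR.MC

/-!
# Project PR, part MCK (helper35): the Markov chain of twists between two neighbouring slices
-/

set_option autoImplicit false
set_option linter.all false

open Finset
open scoped BigOperators symmDiff

namespace Pool.Agent.H35.PR.Slice

open Pool.Agent.H62.PR (Cd LJ S_EUL S_MC S_MCK)
open Pool.Agent.H72.PR.MC

noncomputable section

variable {ι : Type} [Fintype ι]

attribute [local instance] Classical.propDecidable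

/-! ### Double counting -/

/-- the weight of the sets with `D J = d` -/
def PW (D : Finset ι → ℕ) (A : Finset (Finset ι)) (W : Finset ι → Finset ι) (d : ℕ) : ℝ :=
  ∑ J ∈ A.filter (fun J => D J = d), ((W J).card : ℝ)

theorem hcountW (D : Finset ι → ℕ) (Zs : Finset ι → Finset ι) (A : Finset (Finset ι))
    (W : Finset ι → Finset ι) (hA : ∀ J ∈ A, ∀ i ∈ W J, J ∆ {i} ∈ A ∧ i ∈ W (J ∆ {i}))
    (h1 : ∀ J i, i ∈ Zs J → D (J ∆ {i}) = D J + 1 ∧ i ∉ Zs (J ∆ {i}))
    (h2 : ∀ J i, i ∉ Zs J → D (J ∆ {i}) + 1 = D J ∧ i ∈ Zs (J ∆ {i})) (d : ℕ) :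
    ∑ J ∈ A.filter (fun J => D J = d), (W J ∩ Zs J).card =
      ∑ J ∈ A.filter (fun J => D J = d + 1), (W J \ Zs J).card := by
  rw [← Finset.card_sigma, ← Finset.card_sigma]
  refine Finset.card_nbij' (fun x => ⟨x.1 ∆ {x.2}, x.2⟩) (fun x => ⟨x.1 ∆ {x.2}, x.2⟩) ?_ ?_ ?_ ?_
  · rintro ⟨J, i⟩ hJ
    simp only [Finset.coe_sigma, Set.mem_sigma_iff, Finset.mem_coe, Finset.mem_filter,
      Finset.mem_inter, Finset.mem_sdiff] at hJ ⊢
    obtain ⟨⟨hJA, hJd⟩, hiW, hiZ⟩ := hJ
    have := h1 J i hiZ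
    have hh := hA J hJA i hiW
    exact ⟨⟨hh.1, by rw [this.1, hJd]⟩, hh.2, this.2⟩
  · rintro ⟨J, i⟩ hJ
    simp only [Finset.coe_sigma, Set.mem_sigma_iff, Finset.mem_coe, Finset.mem_filter,
      Finset.mem_inter, Finset.mem_sdiff] at hJ ⊢
    obtain ⟨⟨hJA, hJd⟩, hiW, hiZ⟩ := hJ
    have := h2 J i hiZ
    have hh := hA J hJA i hiW
    exact ⟨⟨hh.1, by omega⟩, hh.2, this.2⟩
  · rintro ⟨J, i⟩ _; simp
  · rintro ⟨J, i⟩ _; simp

theorem partBW (D : Finset ι → ℕ) (Zs : Finset ι → Finset ι) (A : Finset (Finset ι))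
    (W : Finset ι → Finset ι) (hA : ∀ J ∈ A, ∀ i ∈ W J, J ∆ {i} ∈ A ∧ i ∈ W (J ∆ {i}))
    (h1 : ∀ J i, i ∈ Zs J → D (J ∆ {i}) = D J + 1 ∧ i ∉ Zs (J ∆ {i}))
    (h2 : ∀ J i, i ∉ Zs J → D (J ∆ {i}) + 1 = D J ∧ i ∈ Zs (J ∆ {i}))
    (δ : ℝ) (hδ : 0 ≤ δ) (T : Finset (Finset ι))
    (hT : ∀ J ∈ A, J ∉ T → |((W J ∩ Zs J).card : ℝ) - (W J).card * (1 / 2) ^ (D J)| ≤
      2 * δ * (W J).card) (N : ℕ) :
    ∑ d ∈ range N, |PW D A W d * (1 / 2) ^ d - PW D A W (d + 1) * (1 - (1 / 2) ^ (d + 1))| ≤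
      2 * ∑ J ∈ A, (2 * δ * (W J).card + if J ∈ T then ((W J).card : ℝ) else 0) := by
  set w : Finset ι → ℝ := fun J => 2 * δ * (W J).card + if J ∈ T then ((W J).card : ℝ) else 0
    with hw
  have hw0 : ∀ J, 0 ≤ w J := by
    intro J; simp only [hw]; split_ifs <;> positivity
  have hZn : ∀ J, ((W J ∩ Zs J).card : ℝ) ≤ (W J).card := by
    intro J; exact_mod_cast Finset.card_le_card Finset.inter_subset_left
  have hpw : ∀ d : ℕ, (1 / 2 : ℝ) ^ d ≤ 1 := fun d => pow_le_one₀ (by norm_num) (by norm_num)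
  have hpw0 : ∀ d : ℕ, (0 : ℝ) ≤ (1 / 2 : ℝ) ^ d := fun d => by positivity
  have hdev : ∀ J ∈ A, |((W J ∩ Zs J).card : ℝ) - (W J).card * (1 / 2) ^ (D J)| ≤ w J := by
    intro J hJA
    by_cases hJ : J ∈ T
    · simp only [hw, if_pos hJ]
      have a1 := hZn J
      have a2 : (0 : ℝ) ≤ ((W J ∩ Zs J).card : ℝ) := by positivity
      have a3 : ((W J).card : ℝ) * (1 / 2) ^ (D J) ≤ (W J).card * 1 :=
        mul_le_mul_of_nonneg_left (hpw _) (by positivity)
      have a4 : (0 : ℝ) ≤ ((W J).card : ℝ) * (1 / 2) ^ (D J) := by positivity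
      have a5 : (0 : ℝ) ≤ 2 * δ * (W J).card := by positivity
      rw [abs_le]; constructor <;> linarith
    · simp only [hw, if_neg hJ, add_zero]
      exact hT J hJA hJ
  have hkey : ∀ d, |PW D A W d * (1 / 2) ^ d - PW D A W (d + 1) * (1 - (1 / 2) ^ (d + 1))| ≤
      ∑ J ∈ A.filter (fun J => D J = d), w J +
      ∑ J ∈ A.filter (fun J => D J = d + 1), w J := by
    intro d
    have b1 : (∑ J ∈ A.filter (fun J => D J = d), ((W J ∩ Zs J).card : ℝ)) =
      ∑ J ∈ A.filter (fun J => D J = d + 1), ((W J).card - (W J ∩ Zs J).card : ℝ) := by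
      have := congrArg (Nat.cast : ℕ → ℝ) (hcountW D Zs A W hA h1 h2 d)
      push_cast at this
      rw [this]
      refine Finset.sum_congr rfl fun J _ => ?_
      have h3 := Finset.card_inter_add_card_sdiff (W J) (Zs J)
      have h4 := congrArg (Nat.cast : ℕ → ℝ) h3
      push_cast at h4
      linarith
    have b2 : |∑ J ∈ A.filter (fun J => D J = d),
        (((W J ∩ Zs J).card : ℝ) - (W J).card * (1 / 2) ^ (D J))| ≤
        ∑ J ∈ A.filter (fun J => D J = d), w J :=
      (Finset.abs_sum_le_sum_abs _ _).trans (Finset.sum_le_sum fun J hJ =>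
        hdev J (Finset.mem_filter.mp hJ).1)
    have b3 : |∑ J ∈ A.filter (fun J => D J = d + 1),
        (((W J ∩ Zs J).card : ℝ) - (W J).card * (1 / 2) ^ (D J))| ≤
        ∑ J ∈ A.filter (fun J => D J = d + 1), w J :=
      (Finset.abs_sum_le_sum_abs _ _).trans (Finset.sum_le_sum fun J hJ =>
        hdev J (Finset.mem_filter.mp hJ).1)
    have b4 : ∑ J ∈ A.filter (fun J => D J = d),
        (((W J ∩ Zs J).card : ℝ) - (W J).card * (1 / 2) ^ (D J)) =
        ∑ J ∈ A.filter (fun J => D J = d), ((W J ∩ Zs J).card : ℝ) -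
          PW D A W d * (1 / 2) ^ d := by
      rw [Finset.sum_sub_distrib]
      congr 1
      rw [PW, Finset.sum_mul]
      refine Finset.sum_congr rfl fun J hJ => ?_
      rw [(Finset.mem_filter.mp hJ).2]
    have b5 : ∑ J ∈ A.filter (fun J => D J = d + 1),
        (((W J ∩ Zs J).card : ℝ) - (W J).card * (1 / 2) ^ (D J)) =
        PW D A W (d + 1) * (1 - (1 / 2) ^ (d + 1)) -
        ∑ J ∈ A.filter (fun J => D J = d + 1), ((W J).card - (W J ∩ Zs J).card : ℝ) := by
      rw [PW, Finset.sum_mul, ← Finset.sum_sub_distrib]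
      refine Finset.sum_congr rfl fun J hJ => ?_
      rw [(Finset.mem_filter.mp hJ).2]; ring
    rw [b4] at b2
    rw [b5] at b3
    rw [abs_le] at b2 b3 ⊢
    constructor <;> linarith [b2.1, b2.2, b3.1, b3.2]
  have hsumw : ∀ (M : ℕ), ∑ d ∈ range M, ∑ J ∈ A.filter (fun J => D J = d), w J ≤
      ∑ J ∈ A, w J := by
    intro M
    rw [← Finset.sum_biUnion]
    · refine Finset.sum_le_sum_of_subset_of_nonneg ?_ fun J _ _ => hw0 J
      intro J hJ
      obtain ⟨d, _, hd⟩ := Finset.mem_biUnion.mp hJ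
      exact (Finset.mem_filter.mp hd).1
    · intro d _ d' _ hdd
      simp only [Function.onFun]
      rw [Finset.disjoint_left]
      intro J hJ hJ'
      exact hdd (((Finset.mem_filter.mp hJ).2).symm.trans (Finset.mem_filter.mp hJ').2)
  have hsumw' : ∑ d ∈ range N, ∑ J ∈ A.filter (fun J => D J = d + 1), w J ≤
      ∑ J ∈ A, w J := by
    have := hsumw (N + 1)
    rw [Finset.sum_range_succ'] at this
    have h0 : 0 ≤ ∑ J ∈ A.filter (fun J => D J = 0), w J :=
      Finset.sum_nonneg fun J _ => hw0 J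
    linarith
  calc _ ≤ ∑ d ∈ range N, (∑ J ∈ A.filter (fun J => D J = d), w J +
          ∑ J ∈ A.filter (fun J => D J = d + 1), w J) :=
          Finset.sum_le_sum fun d _ => hkey d
      _ ≤ _ := by
          rw [Finset.sum_add_distrib]
          linarith [hsumw N]

/-! ### Counting zeros in a subset -/

theorem count_zerosW (S : Submodule F2 (ι → F2 × F2)) (J W : Finset ι) :
    2 * ∑ l : MJ S J, (W ∩ zs (l : ι → F2 × F2)).card =
      2 ^ Module.finrank F2 (MJ S J) * (W.card + (W ∩ ZJ S J).card) := by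
  have e1 : ∀ (l : MJ S J), (W ∩ zs (l : ι → F2 × F2)).card =
      ∑ i ∈ W, if (l : ι → F2 × F2) i = 0 then 1 else 0 := by
    intro l
    rw [Finset.sum_boole]
    simp only [Nat.cast_id]
    congr 1
    ext i
    simp [mem_zs]
  simp_rw [e1]
  rw [Finset.sum_comm, Finset.mul_sum]
  have e2 : ∀ i : ι, 2 * ∑ l : MJ S J, (if (l : ι → F2 × F2) i = 0 then 1 else 0) =
      2 ^ Module.finrank F2 (MJ S J) + if i ∈ ZJ S J then 2 ^ Module.finrank F2 (MJ S J) else 0 := by
    intro i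
    have e3 : (∑ l : MJ S J, (if (l : ι → F2 × F2) i = 0 then 1 else 0)) =
        2 ^ Module.finrank F2 (HJ S J i) := by
      rw [Finset.sum_boole]
      simp only [Nat.cast_id]
      have : Nat.card (HJ S J i) = 2 ^ Module.finrank F2 (HJ S J i) := by
        rw [Module.natCard_eq_pow_finrank (K := F2), Nat.card_zmod]
      rw [← this, ← Fintype.card_subtype, ← Nat.card_eq_fintype_card]
      refine Nat.card_congr ⟨fun l => ⟨l.1.1, (mem_HJ _ _ _ _).mpr ⟨l.1.2, l.2⟩⟩,
        fun l => ⟨⟨l.1, ((mem_HJ _ _ _ _).mp l.2).1⟩, ((mem_HJ _ _ _ _).mp l.2).2⟩,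
        fun l => rfl, fun l => rfl⟩
    rw [e3]
    split_ifs with h
    · rw [mem_ZJ] at h
      rw [HJ_of_vanish S J i h]; ring
    · rw [mem_ZJ] at h
      push Not at h
      obtain ⟨l, hl, hli⟩ := h
      rw [← finrank_HJ S J i l hl hli]; ring
  rw [Finset.sum_congr rfl fun i _ => e2 i, Finset.sum_add_distrib, Finset.sum_const,
    Finset.sum_ite_mem, Finset.sum_const]
  simp only [smul_eq_mul]
  ring

/-- typical sets `Z` relative to `W` -/
def TyW (δ : ℝ) (W Z : Finset ι) : Prop :=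
  |((W ∩ Z).card : ℝ) - W.card / 2| ≤ δ * W.card

theorem typ_devW (S : Submodule F2 (ι → F2 × F2)) (J W : Finset ι) (δ : ℝ) (hδ : 0 ≤ δ)
    (ht : ∀ l ∈ MJ S J, l ≠ 0 → TyW δ W (zs l)) :
    |((W ∩ ZJ S J).card : ℝ) - W.card * (1 / 2) ^ (Module.finrank F2 (MJ S J))| ≤
      2 * δ * W.card := by
  set n := W.card with hn
  set D := Module.finrank F2 (MJ S J) with hD
  have h1 : 2 * ∑ l : MJ S J, ((W ∩ zs (l : ι → F2 × F2)).card : ℝ) =
      2 ^ D * ((n : ℝ) + (W ∩ ZJ S J).card) := by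
    have := count_zerosW S J W
    exact_mod_cast this
  have hcard : (Finset.univ : Finset (MJ S J)).card = 2 ^ D := by
    rw [Finset.card_univ, ← Nat.card_eq_fintype_card, Module.natCard_eq_pow_finrank (K := F2),
      Nat.card_zmod]
  have h2 : ∑ l : MJ S J, (((W ∩ zs (l : ι → F2 × F2)).card : ℝ) - n / 2) =
      2 ^ D * ((W ∩ ZJ S J).card : ℝ) / 2 := by
    rw [Finset.sum_sub_distrib, Finset.sum_const, hcard, nsmul_eq_mul]
    push_cast
    linarith
  have h3 : ∑ l : MJ S J, (((W ∩ zs (l : ι → F2 × F2)).card : ℝ) - n / 2) =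
      ∑ l ∈ Finset.univ.erase (0 : MJ S J), (((W ∩ zs (l : ι → F2 × F2)).card : ℝ) - n / 2) +
        n / 2 := by
    rw [← Finset.sum_erase_add _ _ (Finset.mem_univ (0 : MJ S J))]
    congr 1
    rw [ZeroMemClass.coe_zero, zs_zero, Finset.inter_univ, ← hn]; ring
  have h4 : |∑ l ∈ Finset.univ.erase (0 : MJ S J),
      (((W ∩ zs (l : ι → F2 × F2)).card : ℝ) - n / 2)| ≤ 2 ^ D * (δ * n) := by
    refine (Finset.abs_sum_le_sum_abs _ _).trans ?_
    calc _ ≤ ∑ l ∈ Finset.univ.erase (0 : MJ S J), δ * n := by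
          refine Finset.sum_le_sum fun l hl => ?_
          apply ht l.1 l.2
          intro h
          exact (Finset.mem_erase.mp hl).1 (Subtype.ext h)
      _ ≤ _ := by
          rw [Finset.sum_const, nsmul_eq_mul]
          apply mul_le_mul_of_nonneg_right _ (by positivity)
          have := Finset.card_le_card (Finset.erase_subset (0 : MJ S J) Finset.univ)
          rw [hcard] at this
          exact_mod_cast this
  have h5 : ∑ l ∈ Finset.univ.erase (0 : MJ S J),
      (((W ∩ zs (l : ι → F2 × F2)).card : ℝ) - n / 2) =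
      2 ^ D / 2 * (((W ∩ ZJ S J).card : ℝ) - n * (1 / 2) ^ D) := by
    have h6 : (2 : ℝ) ^ D * (1 / 2) ^ D = 1 := by rw [← mul_pow]; norm_num
    have h7 : ∑ l ∈ Finset.univ.erase (0 : MJ S J),
        (((W ∩ zs (l : ι → F2 × F2)).card : ℝ) - n / 2) =
      2 ^ D * ((W ∩ ZJ S J).card : ℝ) / 2 - n / 2 := by linarith
    rw [h7]
    linear_combination (n / 2 : ℝ) * h6
  rw [h5, abs_mul, abs_of_pos (by positivity)] at h4
  have h8 : (0 : ℝ) < 2 ^ D / 2 := by positivity
  have h9 : 2 ^ D / 2 * |((W ∩ ZJ S J).card : ℝ) - n * (1 / 2) ^ D| ≤ 2 ^ D / 2 * (2 * δ * n) := by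
    linarith
  exact le_of_mul_le_mul_left h9 h8

/-! ### Chebyshev -/

theorem fiber_card (W Y : Finset ι) (hY : Y ⊆ W) :
    (Finset.univ.filter fun Z : Finset ι => W ∩ Z = Y).card = 2 ^ (Fintype.card ι - W.card) := by
  rw [← Finset.card_compl, ← Finset.card_powerset]
  refine Finset.card_nbij' (fun Z => Z \ W) (fun X => X ∪ Y) ?_ ?_ ?_ ?_
  · intro Z _
    simp only [Finset.coe_powerset, Set.mem_preimage, Set.mem_powerset_iff, Finset.coe_subset,
      Finset.mem_coe, Finset.mem_powerset]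
    intro i hi
    rw [Finset.mem_compl]
    exact (Finset.mem_sdiff.mp hi).2
  · intro X hX
    simp only [Finset.coe_powerset, Set.mem_preimage, Set.mem_powerset_iff, Finset.coe_subset,
      Finset.mem_coe, Finset.mem_powerset] at hX
    simp only [Finset.coe_filter, Finset.mem_univ, true_and, Set.mem_setOf_eq]
    ext i
    simp only [Finset.mem_inter, Finset.mem_union]
    constructor
    · rintro ⟨h1, h2 | h2⟩
      · exact absurd h1 (Finset.mem_compl.mp (hX h2))
      · exact h2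
    · intro h; exact ⟨hY h, Or.inr h⟩
  · intro Z hZ
    simp only [Finset.coe_filter, Finset.mem_univ, true_and, Set.mem_setOf_eq] at hZ
    show (Z \ W) ∪ Y = Z
    rw [← hZ]
    ext i
    simp only [Finset.mem_union, Finset.mem_sdiff, Finset.mem_inter]
    tauto
  · intro X hX
    simp only [Finset.coe_powerset, Set.mem_preimage, Set.mem_powerset_iff, Finset.coe_subset,
      Finset.mem_coe, Finset.mem_powerset] at hX
    show (X ∪ Y) \ W = X
    ext i
    simp only [Finset.mem_union, Finset.mem_sdiff]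
    constructor
    · rintro ⟨h1 | h1, h2⟩
      · exact h1
      · exact absurd (hY h1) h2
    · intro h
      exact ⟨Or.inl h, Finset.mem_compl.mp (hX h)⟩

theorem varianceW (W : Finset ι) : ∑ Z : Finset ι, (((W ∩ Z).card : ℝ) - W.card / 2) ^ 2 =
    (2 : ℝ) ^ Fintype.card ι * ((W.card : ℝ) / 4) := by
  set n := W.card with hn
  have h0 : ∑ Z : Finset ι, (((W ∩ Z).card : ℝ) - n / 2) ^ 2 =
      2 ^ (Fintype.card ι - n) * ∑ Y ∈ W.powerset, ((Y.card : ℝ) - n / 2) ^ 2 := by
    rw [← Finset.sum_fiberwise_of_maps_to (s := (Finset.univ : Finset (Finset ι)))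
      (t := W.powerset) (g := fun Z => W ∩ Z)
      (fun Z _ => Finset.mem_powerset.mpr Finset.inter_subset_left), Finset.mul_sum]
    refine Finset.sum_congr rfl fun Y hY => ?_
    rw [Finset.sum_congr rfl (g := fun _ => ((Y.card : ℝ) - n / 2) ^ 2)]
    · rw [Finset.sum_const, fiber_card W Y (Finset.mem_powerset.mp hY), nsmul_eq_mul]
      push_cast
      rfl
    · intro Z hZ
      rw [(Finset.mem_filter.mp hZ).2]
  have h1 : ∑ Y ∈ W.powerset, ((Y.card : ℝ) - n / 2) ^ 2 =
      ∑ m ∈ range (n + 1), (n.choose m : ℝ) * ((m : ℝ) - n / 2) ^ 2 := by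
    have := Finset.sum_powerset_apply_card (fun m : ℕ => ((m : ℝ) - n / 2) ^ 2) (x := W)
    rw [← hn] at this
    rw [this]
    exact Finset.sum_congr rfl fun m _ => by rw [nsmul_eq_mul]
  rw [h0, h1]
  have h2 := congrArg (Polynomial.eval (1 / 2 : ℝ)) (bernsteinPolynomial.variance ℝ n)
  simp only [bernsteinPolynomial, Polynomial.eval_finset_sum, Polynomial.eval_mul,
    Polynomial.eval_pow, Polynomial.eval_sub, Polynomial.eval_smul, Polynomial.eval_X,
    Polynomial.eval_natCast, Polynomial.eval_one, nsmul_eq_mul, smul_eq_mul] at h2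
  have h3 : ∀ m ∈ range (n + 1), (n.choose m : ℝ) * ((m : ℝ) - n / 2) ^ 2 = 2 ^ n *
      (((n : ℝ) * (1 / 2) - m) ^ 2 * ((n.choose m : ℝ) * (1 / 2) ^ m * (1 - 1 / 2) ^ (n - m))) := by
    intro m hm
    have hm' : m ≤ n := by rw [Finset.mem_range] at hm; omega
    have h4 : (2 : ℝ) ^ n * ((1 / 2) ^ m * (1 - 1 / 2) ^ (n - m)) = 1 := by
      rw [show (1 - 1 / 2 : ℝ) = 1 / 2 by norm_num, ← pow_add, show m + (n - m) = n by omega,
        ← mul_pow]
      norm_num
    calc _ = (n.choose m : ℝ) * ((n : ℝ) * (1 / 2) - m) ^ 2 *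
        ((2 : ℝ) ^ n * ((1 / 2) ^ m * (1 - 1 / 2) ^ (n - m))) := by rw [h4]; ring
      _ = _ := by ring
  rw [Finset.sum_congr rfl h3, ← Finset.mul_sum, ← mul_assoc, ← pow_add,
    Nat.sub_add_cancel (by rw [hn]; exact Finset.card_le_univ W)]
  congr 1
  rw [h2]; ring

theorem atyp_cardW (δ : ℝ) (hδ : 0 < δ) (W : Finset ι) (w : ℕ) (hw : W.card = w) (hn : 0 < w) :
    ((Finset.univ.filter fun Z : Finset ι => ¬ TyW δ W Z).card : ℝ) ≤
      2 ^ Fintype.card ι / (4 * δ ^ 2 * w) := by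
  have hnpos : (0 : ℝ) < w := by exact_mod_cast hn
  have h1 : ((Finset.univ.filter fun Z : Finset ι => ¬ TyW δ W Z).card : ℝ) * (δ * w) ^ 2 ≤
      2 ^ Fintype.card ι * (w / 4) := by
    have hv := varianceW W
    rw [hw] at hv
    rw [← hv, ← nsmul_eq_mul, ← Finset.sum_const]
    calc _ ≤ ∑ Z ∈ Finset.univ.filter (fun Z : Finset ι => ¬ TyW δ W Z),
          (((W ∩ Z).card : ℝ) - w / 2) ^ 2 := by
          refine Finset.sum_le_sum fun Z hZ => ?_
          have := (Finset.mem_filter.mp hZ).2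
          rw [TyW, not_le, hw] at this
          rw [← sq_abs (((W ∩ Z).card : ℝ) - w / 2)]
          apply pow_le_pow_left₀ (by positivity) this.le
      _ ≤ _ := Finset.sum_le_sum_of_subset_of_nonneg (Finset.filter_subset _ _)
          fun Z _ _ => sq_nonneg _
  rw [le_div_iff₀ (by positivity)]
  have h2 : ((Finset.univ.filter fun Z : Finset ι => ¬ TyW δ W Z).card : ℝ) * (4 * δ ^ 2 * w) * w =
    4 * (((Finset.univ.filter fun Z : Finset ι => ¬ TyW δ W Z).card : ℝ) * (δ * w) ^ 2) := by ring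
  have h3 : ((Finset.univ.filter fun Z : Finset ι => ¬ TyW δ W Z).card : ℝ) * (4 * δ ^ 2 * w) * w ≤
    2 ^ Fintype.card ι * w := by rw [h2]; linarith
  exact le_of_mul_le_mul_right h3 hnpos

/-- Markov, for one slice. -/
theorem markovW (Ω : Type) [Fintype Ω] (K δ : ℝ) (hδ : 0 < δ) (hK : 0 ≤ K)
    (A : Finset (Finset ι)) (hAne : 0 < A.card) (W : Finset ι → Finset ι) (w : ℕ) (hw0 : 0 < w)
    (hw : ∀ J ∈ A, (W J).card = w) (S : Ω → Submodule F2 (ι → F2 × F2))
    (hS : ∀ J Z : Finset ι, (2 : ℝ) ^ Fintype.card ι *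
      ((Finset.univ.filter fun ω => ∃ l ∈ MJ (S ω) J, l ≠ 0 ∧ zs l = Z).card : ℝ) ≤
        K * Fintype.card Ω) :
    ((Finset.univ.filter fun ω => δ * A.card <
      ((A.filter fun J => ¬ ∀ l ∈ MJ (S ω) J, l ≠ 0 → TyW δ (W J) (zs l)).card : ℝ)).card : ℝ) ≤
      K / (4 * δ ^ 3 * w) * Fintype.card Ω := by
  set n := Fintype.card ι with hnn
  have hnpos : (0 : ℝ) < w := by exact_mod_cast hw0
  have hApos : (0 : ℝ) < A.card := by exact_mod_cast hAne
  set B : Ω → Finset (Finset ι) := fun ω =>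
    A.filter fun J => ¬ ∀ l ∈ MJ (S ω) J, l ≠ 0 → TyW δ (W J) (zs l) with hB
  set At : Finset ι → Finset (Finset ι) := fun J =>
    Finset.univ.filter fun Z : Finset ι => ¬ TyW δ (W J) Z with hAt
  have h1 : ∑ ω, ((B ω).card : ℝ) ≤
      A.card * (2 ^ n / (4 * δ ^ 2 * w) * (K * Fintype.card Ω / 2 ^ n)) := by
    have e1 : ∀ ω, ((B ω).card : ℝ) ≤ ∑ J ∈ A, ∑ Z ∈ At J,
        if ∃ l ∈ MJ (S ω) J, l ≠ 0 ∧ zs l = Z then (1 : ℝ) else 0 := by
      intro ω
      have e2 : ((B ω).card : ℝ) = ∑ J ∈ A,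
          if ¬ ∀ l ∈ MJ (S ω) J, l ≠ 0 → TyW δ (W J) (zs l) then (1 : ℝ) else 0 := by
        rw [Finset.sum_boole]
      rw [e2]
      refine Finset.sum_le_sum fun J _ => ?_
      split_ifs with h
      · exact Finset.sum_nonneg fun Z _ => by split_ifs <;> norm_num
      · push Not at h
        obtain ⟨l, hl, hl0, hlt⟩ := h
        have hmem : zs l ∈ At J := by simp [hAt, hlt]
        have := Finset.single_le_sum (f := fun Z => if ∃ l ∈ MJ (S ω) J, l ≠ 0 ∧ zs l = Z
          then (1 : ℝ) else 0) (fun Z _ => by positivity) hmem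
        refine le_trans ?_ this
        have hex : ∃ l' ∈ MJ (S ω) J, l' ≠ 0 ∧ zs l' = zs l := ⟨l, hl, hl0, rfl⟩
        simp only [if_pos hex]
        exact le_refl _
    calc ∑ ω, ((B ω).card : ℝ) ≤ ∑ ω, ∑ J ∈ A, ∑ Z ∈ At J,
          (if ∃ l ∈ MJ (S ω) J, l ≠ 0 ∧ zs l = Z then (1 : ℝ) else 0) :=
          Finset.sum_le_sum fun ω _ => e1 ω
      _ = ∑ J ∈ A, ∑ Z ∈ At J, ∑ ω,
          (if ∃ l ∈ MJ (S ω) J, l ≠ 0 ∧ zs l = Z then (1 : ℝ) else 0) := by
          rw [Finset.sum_comm]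
          exact Finset.sum_congr rfl fun J _ => Finset.sum_comm
      _ ≤ ∑ J ∈ A, ∑ Z ∈ At J, K * Fintype.card Ω / 2 ^ n := by
          refine Finset.sum_le_sum fun J _ => Finset.sum_le_sum fun Z _ => ?_
          rw [Finset.sum_boole, le_div_iff₀ (by positivity), mul_comm]
          exact hS J Z
      _ ≤ ∑ J ∈ A, (2 ^ n / (4 * δ ^ 2 * w) * (K * Fintype.card Ω / 2 ^ n)) := by
          refine Finset.sum_le_sum fun J hJ => ?_
          rw [Finset.sum_const, nsmul_eq_mul]
          exact mul_le_mul_of_nonneg_right (atyp_cardW δ hδ (W J) w (hw J hJ) hw0)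
            (by positivity)
      _ = _ := by
          rw [Finset.sum_const, nsmul_eq_mul]
  set Bad := Finset.univ.filter fun ω => δ * A.card < ((B ω).card : ℝ) with hBad
  have h3 : (Bad.card : ℝ) * (δ * A.card) ≤ ∑ ω, ((B ω).card : ℝ) := by
    rw [← nsmul_eq_mul, ← Finset.sum_const]
    calc _ ≤ ∑ ω ∈ Bad, ((B ω).card : ℝ) :=
          Finset.sum_le_sum fun ω hω => ((Finset.mem_filter.mp hω).2).le
      _ ≤ _ := Finset.sum_le_sum_of_subset_of_nonneg (Finset.subset_univ _) fun _ _ _ => by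
          positivity
  have h4 := h3.trans h1
  have h5 : (0 : ℝ) < δ * A.card := by positivity
  have h6 : (A.card : ℝ) * (2 ^ n / (4 * δ ^ 2 * w) * (K * Fintype.card Ω / 2 ^ n)) =
      K / (4 * δ ^ 3 * w) * Fintype.card Ω * (δ * A.card) := by
    field_simp
  rw [h6] at h4
  exact le_of_mul_le_mul_right h4 h5

/-! ### The two slices -/

theorem parity (D : Finset ι → ℕ) (Zs : Finset ι → Finset ι)
    (h1 : ∀ J i, i ∈ Zs J → D (J ∆ {i}) = D J + 1 ∧ i ∉ Zs (J ∆ {i}))
    (h2 : ∀ J i, i ∉ Zs J → D (J ∆ {i}) + 1 = D J ∧ i ∈ Zs (J ∆ {i})) (J : Finset ι) :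
    D J % 2 = (D ∅ + J.card) % 2 := by
  induction J using Finset.induction_on with
  | empty => simp
  | insert i J hi ih =>
    have he : J ∆ {i} = insert i J := by
      ext j
      simp only [Finset.mem_symmDiff, Finset.mem_singleton, Finset.mem_insert]
      by_cases hj : j = i
      · subst hj; simp [hi]
      · simp [hj]
    rw [← he, he, Finset.card_insert_of_notMem hi, ← he]
    by_cases hz : i ∈ Zs J
    · have := (h1 J i hz).1; omega
    · have := (h2 J i hz).1; omega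

/-- the free places -/
def Wk (k : ℕ) (J : Finset ι) : Finset ι := if J.card = k then Jᶜ else J

/-- the two slices -/
def Ak (ι : Type) [Fintype ι] (k : ℕ) : Finset (Finset ι) :=
  Finset.univ.filter fun J => J.card = k ∨ J.card = k + 1

theorem flip_card_mem (J : Finset ι) (i : ι) (hi : i ∈ J) : (J ∆ {i}).card + 1 = J.card := by
  have he : J ∆ {i} = J.erase i := by
    ext j
    simp only [Finset.mem_symmDiff, Finset.mem_singleton, Finset.mem_erase]
    by_cases hj : j = i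
    · subst hj; simp [hi]
    · simp [hj]
  rw [he, Finset.card_erase_add_one hi]

theorem flip_card_notMem (J : Finset ι) (i : ι) (hi : i ∉ J) : (J ∆ {i}).card = J.card + 1 := by
  have he : J ∆ {i} = insert i J := by
    ext j
    simp only [Finset.mem_symmDiff, Finset.mem_singleton, Finset.mem_insert]
    by_cases hj : j = i
    · subst hj; simp [hi]
    · simp [hj]
  rw [he, Finset.card_insert_of_notMem hi]

theorem Ak_flip (k : ℕ) (J : Finset ι) (hJ : J ∈ Ak ι k) (i : ι) (hi : i ∈ Wk k J) :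
    J ∆ {i} ∈ Ak ι k ∧ i ∈ Wk k (J ∆ {i}) := by
  simp only [Ak, Finset.mem_filter, Finset.mem_univ, true_and] at hJ ⊢
  unfold Wk at hi ⊢
  split_ifs at hi with h
  · rw [Finset.mem_compl] at hi
    have h2 := flip_card_notMem J i hi
    refine ⟨Or.inr (by omega), ?_⟩
    rw [if_neg (by omega), mem_flip_self]
    exact hi
  · have h2 := flip_card_mem J i hi
    have h3 : J.card = k + 1 := by tauto
    refine ⟨Or.inl (by omega), ?_⟩
    rw [if_pos (by omega), Finset.mem_compl, mem_flip_self]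
    exact fun h => h hi

theorem Ak_sum (k : ℕ) (f : Finset ι → ℝ) : ∑ J ∈ Ak ι k, f J =
    ∑ J ∈ powersetCard k Finset.univ, f J + ∑ J ∈ powersetCard (k + 1) Finset.univ, f J := by
  rw [← Finset.sum_union]
  · refine Finset.sum_congr ?_ fun _ _ => rfl
    ext J
    simp [Ak, Finset.mem_powersetCard_univ]
  · rw [Finset.disjoint_left]
    intro J h1 h2
    rw [Finset.mem_powersetCard_univ] at h1 h2
    omega

theorem Wk_card1 (k : ℕ) (hc : Fintype.card ι = 2 * k) (J : Finset ι)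
    (hJ : J ∈ powersetCard k (Finset.univ : Finset ι)) : (Wk k J).card = k := by
  rw [Finset.mem_powersetCard_univ] at hJ
  rw [Wk, if_pos hJ, Finset.card_compl, hJ, hc]; omega

theorem Wk_card2 (k : ℕ) (J : Finset ι)
    (hJ : J ∈ powersetCard (k + 1) (Finset.univ : Finset ι)) : (Wk k J).card = k + 1 := by
  rw [Finset.mem_powersetCard_univ] at hJ
  rw [Wk, if_neg (by omega), hJ]

/-- Part MCK, for one Lagrangian. -/
theorem oneK (hEUL : S_EUL) (S : Submodule F2 (ι → F2 × F2))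
    (hq : ∀ l ∈ S, ∑ i, (l i).1 * (l i).2 = 0) (hd : Fintype.card ι ≤ Module.finrank F2 S)
    (k : ℕ) (hk : 0 < k) (hc : Fintype.card ι = 2 * k) (δ : ℝ) (hδ : 0 < δ)
    (hA1 : (((powersetCard k (Finset.univ : Finset ι)).filter fun J =>
      ¬ ∀ l ∈ MJ S J, l ≠ 0 → TyW δ (Wk k J) (zs l)).card : ℝ) ≤
      δ * (powersetCard k (Finset.univ : Finset ι)).card)
    (hA2 : (((powersetCard (k + 1) (Finset.univ : Finset ι)).filter fun J =>
      ¬ ∀ l ∈ MJ S J, l ≠ 0 → TyW δ (Wk k J) (zs l)).card : ℝ) ≤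
      δ * (powersetCard (k + 1) (Finset.univ : Finset ι)).card) :
    ∃ π : ℕ, ∀ d : ℕ,
    |((Finset.univ.filter fun J : Finset ι => J.card = k ∧ Module.finrank F2 (MJ S J) = d).card : ℝ) -
      (if d % 2 = π then 2 * Cd d else 0) * (Nat.choose (2 * k) k : ℝ)| ≤
        144 * δ * (Nat.choose (2 * k) k : ℝ) := by
  set D : Finset ι → ℕ := fun J => Module.finrank F2 (MJ S J) with hD
  have h1 : ∀ J i, i ∈ ZJ S J → D (J ∆ {i}) = D J + 1 ∧ i ∉ ZJ S (J ∆ {i}) :=
    fun J i hi => flip_vanish S hq hd J i hi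
  have h2 : ∀ J i, i ∉ ZJ S J → D (J ∆ {i}) + 1 = D J ∧ i ∈ ZJ S (J ∆ {i}) :=
    fun J i hi => flip_nonvanish S hq J i hi
  set C : ℝ := (Nat.choose (2 * k) k : ℝ) with hC
  have hCpos : 0 < C := by
    rw [hC]; exact_mod_cast Nat.choose_pos (by omega)
  have hkpos : (0 : ℝ) < k := by exact_mod_cast hk
  have hc1 : ((powersetCard k (Finset.univ : Finset ι)).card : ℝ) = C := by
    rw [Finset.card_powersetCard, Finset.card_univ, hc]
  have hc2 : ((k : ℝ) + 1) * ((powersetCard (k + 1) (Finset.univ : Finset ι)).card : ℝ) = k * C := by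
    rw [Finset.card_powersetCard, Finset.card_univ, hc]
    have h3 := Nat.choose_succ_right_eq (2 * k) k
    have h4 := congrArg (Nat.cast : ℕ → ℝ) h3
    rw [show 2 * k - k = k by omega] at h4
    push_cast at h4
    rw [hC]
    linarith
  set T : Finset (Finset ι) := Finset.univ.filter fun J =>
      ¬ ∀ l ∈ MJ S J, l ≠ 0 → TyW δ (Wk k J) (zs l) with hT
  have hsumW : ∑ J ∈ Ak ι k, ((Wk k J).card : ℝ) = 2 * k * C := by
    rw [Ak_sum, Finset.sum_congr rfl fun J hJ => by rw [Wk_card1 k hc J hJ],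
      Finset.sum_congr (s₁ := powersetCard (k + 1) _) rfl fun J hJ => by rw [Wk_card2 k J hJ],
      Finset.sum_const, Finset.sum_const, nsmul_eq_mul, nsmul_eq_mul, hc1]
    push_cast
    linarith
  have hsumT : ∑ J ∈ Ak ι k, (if J ∈ T then ((Wk k J).card : ℝ) else 0) ≤ 2 * δ * k * C := by
    rw [Ak_sum, Finset.sum_congr rfl fun J hJ => by rw [Wk_card1 k hc J hJ],
      Finset.sum_congr (s₁ := powersetCard (k + 1) _) rfl fun J hJ => by rw [Wk_card2 k J hJ],
      ← Finset.sum_filter, ← Finset.sum_filter,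
      Finset.sum_const, Finset.sum_const, nsmul_eq_mul, nsmul_eq_mul]
    have e1 : ∀ m, (powersetCard m (Finset.univ : Finset ι)).filter (fun J => J ∈ T) =
        (powersetCard m (Finset.univ : Finset ι)).filter (fun J =>
      ¬ ∀ l ∈ MJ S J, l ≠ 0 → TyW δ (Wk k J) (zs l)) := by
      intro m
      refine Finset.filter_congr fun J _ => ?_
      simp only [hT, Finset.mem_filter, Finset.mem_univ, true_and]
    rw [e1, e1]
    rw [hc1] at hA1
    have e2 := mul_le_mul_of_nonneg_right hA1 hkpos.le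
    have e3 := mul_le_mul_of_nonneg_right hA2 (show (0 : ℝ) ≤ (k : ℝ) + 1 by positivity)
    push_cast
    have e4 : δ * ((powersetCard (k + 1) (Finset.univ : Finset ι)).card : ℝ) * ((k : ℝ) + 1) =
        δ * (k * C) := by rw [← hc2]; ring
    linarith
  set p : ℕ → ℝ := fun d => PW D (Ak ι k) (Wk k) d / (2 * k * C) with hp
  have hps : HasSum p 1 := by
    set M := Finset.univ.sup D with hM
    have hle : ∀ J, D J < M + 1 := fun J =>
      Nat.lt_succ_of_le (Finset.le_sup (f := D) (Finset.mem_univ J))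
    have h1 : ∑ d ∈ range (M + 1), p d = 1 := by
      simp only [hp]
      rw [← Finset.sum_div, div_eq_one_iff_eq (by positivity), ← hsumW]
      simp only [PW]
      exact Finset.sum_fiberwise_of_maps_to (s := Ak ι k) (t := range (M + 1)) (g := D)
        (fun J _ => by simpa using hle J) (fun J => ((Wk k J).card : ℝ))
    rw [← h1]
    apply hasSum_sum_of_ne_finset_zero
    intro d hd
    simp only [hp]
    rw [div_eq_zero_iff]
    left
    rw [PW, Finset.filter_false_of_mem, Finset.sum_empty]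
    intro J _ h
    apply hd
    rw [Finset.mem_range, ← h]
    exact hle J
  have hE : ∀ N, ∑ d ∈ range N, |p d * (1 / 2) ^ d - p (d + 1) * (1 - (1 / 2) ^ (d + 1))| ≤
      6 * δ := by
    intro N
    have hB := partBW D (ZJ S) (Ak ι k) (Wk k) (Ak_flip k) h1 h2 δ hδ.le T
      (fun J _ hJ => typ_devW S J (Wk k J) δ hδ.le (by simpa [hT] using hJ)) N
    have h3 : (2 * k * C) * ∑ d ∈ range N,
        |p d * (1 / 2) ^ d - p (d + 1) * (1 - (1 / 2) ^ (d + 1))| ≤ (2 * k * C) * (6 * δ) := by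
      calc _ = ∑ d ∈ range N, |PW D (Ak ι k) (Wk k) d * (1 / 2) ^ d -
            PW D (Ak ι k) (Wk k) (d + 1) * (1 - (1 / 2) ^ (d + 1))| := by
            rw [Finset.mul_sum]
            refine Finset.sum_congr rfl fun d _ => ?_
            rw [← abs_of_pos (a := (2 * k * C : ℝ)) (by positivity), ← abs_mul]
            congr 1
            simp only [hp]
            field_simp
        _ ≤ _ := hB
        _ ≤ _ := by
            rw [Finset.sum_add_distrib, ← Finset.mul_sum, hsumW]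
            linarith
    exact le_of_mul_le_mul_left h3 (by positivity)
  have hmain := partC p hps (6 * δ) hE hEUL
  refine ⟨(D ∅ + k) % 2, fun d => ?_⟩
  split_ifs with hpar
  · have h3 : PW D (Ak ι k) (Wk k) d =
        k * ((Finset.univ.filter fun J : Finset ι => J.card = k ∧ D J = d).card : ℝ) := by
      rw [PW]
      have e1 : (Ak ι k).filter (fun J => D J = d) =
          Finset.univ.filter fun J : Finset ι => J.card = k ∧ D J = d := by
        ext J
        simp only [Ak, Finset.mem_filter, Finset.mem_univ, true_and]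
        constructor
        · rintro ⟨h | h, h'⟩
          · exact ⟨h, h'⟩
          · exfalso
            have := parity D (ZJ S) h1 h2 J
            rw [h, h'] at this
            omega
        · rintro ⟨h, h'⟩
          exact ⟨Or.inl h, h'⟩
      rw [e1, Finset.sum_congr rfl (g := fun _ => (k : ℝ))]
      · rw [Finset.sum_const, nsmul_eq_mul]; ring
      · intro J hJ
        rw [Wk_card1 k hc J (by
          rw [Finset.mem_powersetCard_univ]; exact (Finset.mem_filter.mp hJ).2.1)]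
    have h4 : ((Finset.univ.filter fun J : Finset ι => J.card = k ∧ D J = d).card : ℝ) =
        2 * C * p d := by
      simp only [hp]
      rw [h3]; field_simp
    rw [h4, show 2 * C * p d - 2 * Cd d * C = 2 * C * (p d - Cd d) by ring, abs_mul,
      abs_of_pos (a := 2 * C) (by positivity)]
    have h5 := mul_le_mul_of_nonneg_left (hmain d) (show (0 : ℝ) ≤ 2 * C by positivity)
    linarith
  · have h3 : (Finset.univ.filter fun J : Finset ι => J.card = k ∧ D J = d) = ∅ := by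
      rw [Finset.filter_eq_empty_iff]
      rintro J _ ⟨h, h'⟩
      have := parity D (ZJ S) h1 h2 J
      rw [h, h'] at this
      exact hpar this
    rw [h3]
    simp only [Finset.card_empty, Nat.cast_zero, zero_mul, sub_zero, abs_zero]
    positivity

theorem mck (hEUL : S_EUL) : S_MCK := by
  intro ε K hε
  set δ : ℝ := ε / 144 with hδdef
  have hδ : 0 < δ := by positivity
  set K' : ℝ := max K 0 with hK'
  have hK'0 : 0 ≤ K' := le_max_right _ _
  refine ⟨⌈K' / (2 * δ ^ 3 * ε)⌉₊ + 1, ?_⟩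
  intro ι Ω _ _ k hn hc Λ hq hcard hK
  have hn0 : 0 < k := by omega
  have hkpos : (0 : ℝ) < k := by exact_mod_cast hn0
  set S : Ω → Submodule F2 (ι → F2 × F2) := fun ω => AddSubgroup.toZModSubmodule 2 (Λ ω) with hS
  have hmem : ∀ ω l, l ∈ S ω ↔ l ∈ Λ ω := fun ω l => Iff.rfl
  have hSq : ∀ ω, ∀ l ∈ S ω, ∑ i, (l i).1 * (l i).2 = 0 := hq
  have hSd : ∀ ω, Fintype.card ι ≤ Module.finrank F2 (S ω) := by
    intro ω
    have h1 : Nat.card (S ω) = 2 ^ Module.finrank F2 (S ω) := by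
      rw [Module.natCard_eq_pow_finrank (K := F2), Nat.card_zmod]
    have h2 : 2 ^ Fintype.card ι ≤ Nat.card (S ω) := hcard ω
    rw [h1] at h2
    exact (Nat.pow_le_pow_iff_right (by norm_num)).mp h2
  have hSK : ∀ J Z : Finset ι, (2 : ℝ) ^ Fintype.card ι *
      ((Finset.univ.filter fun ω => ∃ l ∈ MJ (S ω) J, l ≠ 0 ∧ zs l = Z).card : ℝ) ≤
        K' * Fintype.card Ω := by
    intro J Z
    have h1 := hK J Z
    have h2 : Nat.card {ω : Ω // ∃ l ∈ Λ ω, l ∈ LJ J ∧ l ≠ 0 ∧ ∀ i, l i = 0 ↔ i ∈ Z} =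
        (Finset.univ.filter fun ω => ∃ l ∈ MJ (S ω) J, l ≠ 0 ∧ zs l = Z).card := by
      rw [Nat.card_eq_fintype_card, Fintype.card_subtype]
      congr 1
      ext ω
      simp only [Finset.mem_filter, Finset.mem_univ, true_and]
      constructor
      · rintro ⟨l, h1, h2, h3, h4⟩
        refine ⟨l, (mem_MJ _ _ _).mpr ⟨h1, h2⟩, h3, ?_⟩
        ext i; rw [mem_zs]; exact h4 i
      · rintro ⟨l, h1, h3, h4⟩
        refine ⟨l, ((mem_MJ _ _ _).mp h1).1, ((mem_MJ _ _ _).mp h1).2, h3, fun i => ?_⟩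
        rw [← h4, mem_zs]
    rw [h2] at h1
    refine h1.trans ?_
    exact mul_le_mul_of_nonneg_right (le_max_left _ _) (by positivity)
  have hAne1 : 0 < (powersetCard k (Finset.univ : Finset ι)).card := by
    rw [Finset.card_powersetCard, Finset.card_univ, hc]
    exact Nat.choose_pos (by omega)
  have hAne2 : 0 < (powersetCard (k + 1) (Finset.univ : Finset ι)).card := by
    rw [Finset.card_powersetCard, Finset.card_univ, hc]
    exact Nat.choose_pos (by omega)
  have hM1 := markovW Ω K' δ hδ hK'0 _ hAne1 (Wk k) k hn0 (Wk_card1 k hc) S hSK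
  have hM2 := markovW Ω K' δ hδ hK'0 _ hAne2 (Wk k) (k + 1) (by omega) (Wk_card2 k) S hSK
  set Bad1 := Finset.univ.filter fun ω => δ * (powersetCard k (Finset.univ : Finset ι)).card <
      (((powersetCard k (Finset.univ : Finset ι)).filter fun J =>
        ¬ ∀ l ∈ MJ (S ω) J, l ≠ 0 → TyW δ (Wk k J) (zs l)).card : ℝ) with hBad1
  set Bad2 := Finset.univ.filter fun ω => δ * (powersetCard (k + 1) (Finset.univ : Finset ι)).card <
      (((powersetCard (k + 1) (Finset.univ : Finset ι)).filter fun J =>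
        ¬ ∀ l ∈ MJ (S ω) J, l ≠ 0 → TyW δ (Wk k J) (zs l)).card : ℝ) with hBad2
  have hkK : K' / (4 * δ ^ 3 * k) ≤ ε / 2 := by
    have h2 := Nat.le_ceil (K' / (2 * δ ^ 3 * ε))
    have h3 : ((⌈K' / (2 * δ ^ 3 * ε)⌉₊ : ℕ) : ℝ) ≤ k := by
      exact_mod_cast (by omega : ⌈K' / (2 * δ ^ 3 * ε)⌉₊ ≤ k)
    have h1 : K' / (2 * δ ^ 3 * ε) ≤ k := by linarith
    rw [div_le_iff₀ (by positivity)] at h1 ⊢
    linarith
  have hkK2 : K' / (4 * δ ^ 3 * ((k + 1 : ℕ) : ℝ)) ≤ ε / 2 := by
    refine le_trans ?_ hkK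
    apply div_le_div_of_nonneg_left hK'0 (by positivity)
    push_cast
    have : (0 : ℝ) < 4 * δ ^ 3 := by positivity
    nlinarith
  have hBadle : ((Bad1 ∪ Bad2).card : ℝ) ≤ ε * Fintype.card Ω := by
    have e1 : ((Bad1 ∪ Bad2).card : ℝ) ≤ Bad1.card + Bad2.card := by
      exact_mod_cast Finset.card_union_le _ _
    have e2 := mul_le_mul_of_nonneg_right hkK (show (0 : ℝ) ≤ Fintype.card Ω by positivity)
    have e3 := mul_le_mul_of_nonneg_right hkK2 (show (0 : ℝ) ≤ Fintype.card Ω by positivity)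
    linarith
  have hgood : ∀ ω ∉ Bad1 ∪ Bad2, ∃ π : ℕ, ∀ d : ℕ,
    |(Nat.card {J : Finset ι // J.card = k ∧
        Nat.card {l : ι → ZMod 2 × ZMod 2 // l ∈ Λ ω ∧ l ∈ LJ J} = 2 ^ d} : ℝ)
      - (if d % 2 = π then 2 * Cd d else 0) * (Nat.choose (2 * k) k : ℝ)| ≤
        ε * (Nat.choose (2 * k) k : ℝ) := by
    intro ω hω
    rw [Finset.mem_union, not_or] at hω
    obtain ⟨π, hπ⟩ := oneK hEUL (S ω) (hSq ω) (hSd ω) k hn0 hc δ hδ (by
      have := hω.1
      simp only [hBad1, Finset.mem_filter, Finset.mem_univ, true_and, not_lt] at this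
      exact this) (by
      have := hω.2
      simp only [hBad2, Finset.mem_filter, Finset.mem_univ, true_and, not_lt] at this
      exact this)
    refine ⟨π, fun d => ?_⟩
    have h2 : Nat.card {J : Finset ι // J.card = k ∧
        Nat.card {l : ι → ZMod 2 × ZMod 2 // l ∈ Λ ω ∧ l ∈ LJ J} = 2 ^ d} =
        (Finset.univ.filter fun J : Finset ι =>
          J.card = k ∧ Module.finrank F2 (MJ (S ω) J) = d).card := by
      rw [Nat.card_eq_fintype_card, Fintype.card_subtype]
      congr 1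
      ext J
      simp only [Finset.mem_filter, Finset.mem_univ, true_and]
      have h3 : Nat.card {l : ι → ZMod 2 × ZMod 2 // l ∈ Λ ω ∧ l ∈ LJ J} =
          2 ^ Module.finrank F2 (MJ (S ω) J) := by
        have h4 : Nat.card (MJ (S ω) J) = 2 ^ Module.finrank F2 (MJ (S ω) J) := by
          rw [Module.natCard_eq_pow_finrank (K := F2), Nat.card_zmod]
        rw [← h4]
        exact Nat.card_congr (Equiv.subtypeEquivRight fun l => (mem_MJ (S ω) J l).symm)
      rw [h3]
      exact ⟨fun h => ⟨h.1, Nat.pow_right_injective (le_refl 2) h.2⟩,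
        fun h => ⟨h.1, by rw [h.2]⟩⟩
    rw [h2]
    refine (hπ d).trans (le_of_eq ?_)
    simp only [hδdef]; ring
  have hfin : ((Bad1 ∪ Bad2)ᶜ.card : ℝ) ≤ (Nat.card {ω : Ω // ∃ π : ℕ, ∀ d : ℕ,
    |(Nat.card {J : Finset ι // J.card = k ∧
        Nat.card {l : ι → ZMod 2 × ZMod 2 // l ∈ Λ ω ∧ l ∈ LJ J} = 2 ^ d} : ℝ)
      - (if d % 2 = π then 2 * Cd d else 0) * (Nat.choose (2 * k) k : ℝ)| ≤
        ε * (Nat.choose (2 * k) k : ℝ)} : ℝ) := by
    rw [Nat.card_eq_fintype_card, Fintype.card_subtype]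
    have := Finset.card_le_card (s := (Bad1 ∪ Bad2)ᶜ) (t := Finset.univ.filter fun ω =>
      ∃ π : ℕ, ∀ d : ℕ, |(Nat.card {J : Finset ι // J.card = k ∧
        Nat.card {l : ι → ZMod 2 × ZMod 2 // l ∈ Λ ω ∧ l ∈ LJ J} = 2 ^ d} : ℝ)
      - (if d % 2 = π then 2 * Cd d else 0) * (Nat.choose (2 * k) k : ℝ)| ≤
        ε * (Nat.choose (2 * k) k : ℝ)) (by
      intro ω hω
      rw [Finset.mem_compl] at hω
      simp only [Finset.mem_filter, Finset.mem_univ, true_and]
      exact hgood ω hω)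
    exact_mod_cast this
  refine le_trans ?_ hfin
  rw [Finset.card_compl, Nat.cast_sub (Finset.card_le_univ _)]
  linarith

end

end Pool.Agent.H35.PR.Slice
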